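import Pool.Agent.Work.MP_2ad852_ag.GX.Final

/-!
# Strong Lefschetz property of generic forms in all degrees up to `2 δ - max 2 (n - 2)`

Here the number of forms is arbitrary and `δ` is a lower bound of the degrees. `trunc n k t` is the
dimension of the degree `t` part of the polynomial ring in `n` variables modulo the `k`-th power of
one variable.
-/

namespace Pool.Agent.Results.MP_2ad852_ag.LefschetzRange

open Pool.Agent.Work.MP_2ad852_ag

/-- `dim (S / (x ^ k))_t` for the polynomial ring `S` in `n ≥ 2` variables and a variable `x`: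
the number of monomials of degree `t` whose exponent `j` of `x` is less than `k` -/
def trunc (n k t : ℕ) : ℕ := ∑ j ∈ Finset.range (min k (t + 1)), (t - j + n - 2).choose (n - 2)

theorem result :
    ∀ n r δ : ℕ, 3 ≤ n → 1 ≤ δ → ∀ d : Fin r → ℕ, (∀ j, δ ≤ d j) →
      ∃ P : MvPolynomial (Fin r × (Fin n →₀ ℕ)) ℂ,
        (∃ f₀ : Fin r → MvPolynomial (Fin n) ℂ,
            (∀ j, (f₀ j).IsHomogeneous (d j)) ∧
            MvPolynomial.eval (fun p => (f₀ p.1).coeff p.2) P ≠ 0) ∧
        ∀ f : Fin r → MvPolynomial (Fin n) ℂ,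
          (∀ j, (f j).IsHomogeneous (d j)) →
          MvPolynomial.eval (fun p => (f p.1).coeff p.2) P ≠ 0 →
          ∃ l : MvPolynomial (Fin n) ℂ, l.IsHomogeneous 1 ∧
            ∀ i k : ℕ,
              (i + k + max 2 (n - 2) ≤ 2 * δ ∨
                (∃ e, e + max 2 (n - 2) ≤ 2 * δ ∧ (e + n - 1).choose (n - 1) ≤
                  ∑ j ∈ (Finset.univ : Finset (Fin r)).filter (fun j => d j ≤ e),
                    (e - d j + n - 1).choose (n - 1)) ∨
                (i + k < 2 * δ ∧ 2 ^ (n - 1) * trunc n k (i + k - δ) ≤ trunc n k (i + k)) ∨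
                (i + k < 2 * δ ∧ k = 1 ∧
                  2 ^ (n - 2) * trunc n k (i + k - δ) ≤ trunc n k (i + k)) ∨
                i + k < δ) →
              (∀ g : MvPolynomial (Fin n) ℂ, g.IsHomogeneous i →
                  l ^ k * g ∈ Ideal.span (Set.range f) → g ∈ Ideal.span (Set.range f)) ∨
              (∀ h : MvPolynomial (Fin n) ℂ, h.IsHomogeneous (i + k) →
                  ∃ g : MvPolynomial (Fin n) ℂ, g.IsHomogeneous i ∧
                    h - l ^ k * g ∈ Ideal.span (Set.range f)) := by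
  intro n r δ hn hδ d hd
  obtain ⟨P, h1, h2⟩ := GX.thmX GX.combX n r δ hn ⟨0, by omega⟩ d hd
  refine ⟨P, h1, fun f hf hP => ?_⟩
  obtain ⟨l, hl, h, h'⟩ := h2 f hf hP
  refine ⟨l, hl, fun i k hc => ?_⟩
  rcases hc with hc | hc | ⟨hik, hc⟩ | ⟨hik, hk, hc⟩ | hc
  · exact h i k (by omega) (Or.inr (Or.inl hc))
  · exact h' hc i k
  · refine h i k hik (Or.inr (Or.inr (Or.inl ?_)))
    rw [GS.card_Mk_eq (by omega), GS.card_Mk_eq (by omega)]
    exact hc
  · refine h i k hik (Or.inr (Or.inr (Or.inr ⟨hk, ?_⟩)))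
    rw [GS.card_Mk_eq (by omega), GS.card_Mk_eq (by omega)]
    exact hc
  · exact h i k (by omega) (Or.inl hc)

end Pool.Agent.Results.MP_2ad852_ag.LefschetzRange
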