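import Pool.Agent.Work.MP_2ad852_ag.GS.Final

/-!
# Strong Lefschetz property of generic forms

In `n ≥ 3` variables, generic forms of degrees at least `δ`, of which at least `2 ^ (n - 1)` have
degree exactly `δ`, define an algebra with the weak and the strong Lefschetz property. There is no
bound on the number of the other forms nor on their degrees. For `n = 3` and equal degrees this is
every number `r > n` of forms.
-/

namespace Pool.Agent.Results.MP_2ad852_ag.StrongLefschetz

open Pool.Agent.Work.MP_2ad852_ag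

theorem result :
    ∀ n r δ : ℕ, 3 ≤ n → 1 ≤ δ → ∀ d : Fin r → ℕ, (∀ j, δ ≤ d j) →
      2 ^ (n - 1) ≤ ((Finset.univ : Finset (Fin r)).filter (fun j => d j = δ)).card →
      ∃ P : MvPolynomial (Fin r × (Fin n →₀ ℕ)) ℂ,
        (∃ f₀ : Fin r → MvPolynomial (Fin n) ℂ,
            (∀ j, (f₀ j).IsHomogeneous (d j)) ∧
            MvPolynomial.eval (fun p => (f₀ p.1).coeff p.2) P ≠ 0) ∧
        ∀ f : Fin r → MvPolynomial (Fin n) ℂ,
          (∀ j, (f j).IsHomogeneous (d j)) →
          MvPolynomial.eval (fun p => (f p.1).coeff p.2) P ≠ 0 →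
          ((∃ l : MvPolynomial (Fin n) ℂ, l.IsHomogeneous 1 ∧
              ∀ i : ℕ,
                (∀ g : MvPolynomial (Fin n) ℂ, g.IsHomogeneous i →
                    l * g ∈ Ideal.span (Set.range f) → g ∈ Ideal.span (Set.range f)) ∨
                (∀ h : MvPolynomial (Fin n) ℂ, h.IsHomogeneous (i + 1) →
                    ∃ g : MvPolynomial (Fin n) ℂ, g.IsHomogeneous i ∧
                      h - l * g ∈ Ideal.span (Set.range f))) ∧
           (∃ l : MvPolynomial (Fin n) ℂ, l.IsHomogeneous 1 ∧
              ∀ i k : ℕ,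
                (∀ g : MvPolynomial (Fin n) ℂ, g.IsHomogeneous i →
                    l ^ k * g ∈ Ideal.span (Set.range f) → g ∈ Ideal.span (Set.range f)) ∨
                (∀ h : MvPolynomial (Fin n) ℂ, h.IsHomogeneous (i + k) →
                    ∃ g : MvPolynomial (Fin n) ℂ, g.IsHomogeneous i ∧
                      h - l ^ k * g ∈ Ideal.span (Set.range f)))) := by
  intro n r δ hn hδ d hd hm
  obtain ⟨P, h1, h2⟩ := GS.thmS n r δ hn hδ d hd hm
  refine ⟨P, h1, fun f hf hP => ?_⟩
  obtain ⟨l, hl, h⟩ := h2 f hf hP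
  refine ⟨⟨l, hl, fun i => ?_⟩, l, hl, fun i k => h i k⟩
  have h3 := h i 1
  unfold GF.MaxRk at h3
  rw [pow_one] at h3
  exact h3

end Pool.Agent.Results.MP_2ad852_ag.StrongLefschetz
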