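import Pool.Agent.Work.MP_2ad852_ag.G3.Final

/-!
# Generic forms in three variables: weak and strong Lefschetz property

The question Q1 for `n = 3` variables, for every number `r > 3` of generic forms and for all
degrees `d_1, …, d_r`: the quotient has the weak and the strong Lefschetz property.
-/

namespace Pool.Agent.Results.MP_2ad852_ag.ThreeVariables

open Pool.Agent.Work.MP_2ad852_ag

theorem result :
    ∀ r : ℕ, 3 < r → ∀ d : Fin r → ℕ, (∀ j, 1 ≤ d j) →
      ∃ P : MvPolynomial (Fin r × (Fin 3 →₀ ℕ)) ℂ,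
        (∃ f₀ : Fin r → MvPolynomial (Fin 3) ℂ,
            (∀ j, (f₀ j).IsHomogeneous (d j)) ∧
            MvPolynomial.eval (fun p => (f₀ p.1).coeff p.2) P ≠ 0) ∧
        ∀ f : Fin r → MvPolynomial (Fin 3) ℂ,
          (∀ j, (f j).IsHomogeneous (d j)) →
          MvPolynomial.eval (fun p => (f p.1).coeff p.2) P ≠ 0 →
          ((∃ l : MvPolynomial (Fin 3) ℂ, l.IsHomogeneous 1 ∧
              ∀ i : ℕ,
                (∀ g : MvPolynomial (Fin 3) ℂ, g.IsHomogeneous i →
                    l * g ∈ Ideal.span (Set.range f) → g ∈ Ideal.span (Set.range f)) ∨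
                (∀ h : MvPolynomial (Fin 3) ℂ, h.IsHomogeneous (i + 1) →
                    ∃ g : MvPolynomial (Fin 3) ℂ, g.IsHomogeneous i ∧
                      h - l * g ∈ Ideal.span (Set.range f))) ∧
           (∃ l : MvPolynomial (Fin 3) ℂ, l.IsHomogeneous 1 ∧
              ∀ i k : ℕ,
                (∀ g : MvPolynomial (Fin 3) ℂ, g.IsHomogeneous i →
                    l ^ k * g ∈ Ideal.span (Set.range f) → g ∈ Ideal.span (Set.range f)) ∨
                (∀ h : MvPolynomial (Fin 3) ℂ, h.IsHomogeneous (i + k) →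
                    ∃ g : MvPolynomial (Fin 3) ℂ, g.IsHomogeneous i ∧
                      h - l ^ k * g ∈ Ideal.span (Set.range f)))) := by
  intro r hr d hd
  obtain ⟨P, h1, h2⟩ := G3.thm3 r hr d hd
  refine ⟨P, h1, fun f hf hP => ?_⟩
  obtain ⟨l, hl, h⟩ := h2 f hf hP
  refine ⟨⟨l, hl, fun i => ?_⟩, l, hl, fun i k => h i k⟩
  have h3 := h i 1
  unfold GF.MaxRk at h3
  rw [pow_one] at h3
  exact h3

end Pool.Agent.Results.MP_2ad852_ag.ThreeVariables
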