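import Pool.Agent.Work.MP_2ad852_ag.GS.Final

/-!
# Weak Lefschetz property of generic forms

In `n ≥ 3` variables, generic forms of degrees at least `δ`, of which at least `2 ^ (n - 2)` have
degree exactly `δ`, define an algebra with the weak Lefschetz property.
-/

namespace Pool.Agent.Results.MP_2ad852_ag.WeakLefschetz

open Pool.Agent.Work.MP_2ad852_ag

theorem result :
    ∀ n r δ : ℕ, 3 ≤ n → 1 ≤ δ → ∀ d : Fin r → ℕ, (∀ j, δ ≤ d j) →
      2 ^ (n - 2) ≤ ((Finset.univ : Finset (Fin r)).filter (fun j => d j = δ)).card →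
      ∃ P : MvPolynomial (Fin r × (Fin n →₀ ℕ)) ℂ,
        (∃ f₀ : Fin r → MvPolynomial (Fin n) ℂ,
            (∀ j, (f₀ j).IsHomogeneous (d j)) ∧
            MvPolynomial.eval (fun p => (f₀ p.1).coeff p.2) P ≠ 0) ∧
        ∀ f : Fin r → MvPolynomial (Fin n) ℂ,
          (∀ j, (f j).IsHomogeneous (d j)) →
          MvPolynomial.eval (fun p => (f p.1).coeff p.2) P ≠ 0 →
          ∃ l : MvPolynomial (Fin n) ℂ, l.IsHomogeneous 1 ∧
            ∀ i : ℕ,
              (∀ g : MvPolynomial (Fin n) ℂ, g.IsHomogeneous i →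
                  l * g ∈ Ideal.span (Set.range f) → g ∈ Ideal.span (Set.range f)) ∨
              (∀ h : MvPolynomial (Fin n) ℂ, h.IsHomogeneous (i + 1) →
                  ∃ g : MvPolynomial (Fin n) ℂ, g.IsHomogeneous i ∧
                    h - l * g ∈ Ideal.span (Set.range f)) := by
  intro n r δ hn hδ d hd hm
  obtain ⟨P, h1, h2⟩ := GS.thmW n r δ hn hδ d hd hm
  refine ⟨P, h1, fun f hf hP => ?_⟩
  obtain ⟨l, hl, h⟩ := h2 f hf hP
  refine ⟨l, hl, fun i => ?_⟩
  have h3 := h i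
  unfold GF.MaxRk at h3
  rw [pow_one] at h3
  exact h3

end Pool.Agent.Results.MP_2ad852_ag.WeakLefschetz
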